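import Pool.Agent.helper82.LB.Spec2

/-!
# Row lb:ORD (MP_2e0e07_nt): a Frobenius element of large order
-/

set_option autoImplicit false

open Matrix Polynomial NumberField Pool.Agent.GO Pool.Agent.AR Pool.Agent.RG Pool.Agent.HZ Pool.Agent.DS Pool.Agent.AX
  Pool.Agent.UM Pool.Agent.CH

namespace Pool.Agent.LB

theorem ORD_map {R R' : Type*} [CommRing R] [CommRing R'] (f : R →+* R') (t d : R) :
    ∀ k, f (Uk t d k) = Uk (f t) (f d) k
  | 0 => by simp [Uk]
  | 1 => by simp [Uk]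
  | (k + 2) => by
      rw [Uk, Uk, map_sub, map_mul, map_mul, ORD_map f t d (k + 1), ORD_map f t d k]

theorem ORD_two {R : Type*} [CommRing R] : ∀ k : ℕ, Uk (2 : R) 1 k = k
  | 0 => by simp [Uk]
  | 1 => by simp [Uk]
  | (k + 2) => by
      rw [Uk, ORD_two (k + 1), ORD_two k]
      push_cast
      ring

theorem ORD_cont {F : Type*} [NormedField F] : ∀ k : ℕ, Continuous (fun x : F × F => Uk x.1 x.2 k)
  | 0 => by simp only [Uk]; exact continuous_const
  | 1 => by simp only [Uk]; exact continuous_const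
  | (k + 2) => by
      simp only [Uk]
      exact (continuous_fst.mul (ORD_cont (k + 1))).sub (continuous_snd.mul (ORD_cont k))

theorem ORD_coeff {F : Type*} [Field F] (A : Matrix (Fin 2) (Fin 2) F) (q : F[X]) (h : A.charpoly = q) :
    A.trace = -q.coeff 1 ∧ A.det = q.coeff 0 := by
  rw [Matrix.charpoly_fin_two] at h
  subst h
  constructor <;> simp [coeff_X]

/-- the matrices whose trace and determinant are good -/
def ORD_W (F : Type) [NormedField F] : Set (F × F) := {x | ∀ k : ℕ, 1 ≤ k → k ≤ 60 → Uk x.1 x.2 k ≠ 0}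

theorem ORD_open (F : Type) [NormedField F] : IsOpen (ORD_W F) := by
  have h1 : ORD_W F = ⋂ k ∈ Finset.Icc 1 60, {x : F × F | Uk x.1 x.2 k ≠ 0} := by
    ext x
    simp only [ORD_W, Set.mem_setOf_eq, Set.mem_iInter, Finset.mem_Icc]
    constructor
    · intro h k hk
      exact h k hk.1 hk.2
    · intro h k hk hk'
      exact h k ⟨hk, hk'⟩
  rw [h1]
  apply isOpen_biInter_finset
  intro k _
  exact isOpen_ne_fun (ORD_cont k) continuous_const

theorem ORD (hSPT : SPT_stmt) (hLOC : LOC_stmt) : ORD_stmt := by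
  classical
  intro Γ Place E J _ _ _ _ _ _ frob nv T Q p _ F Ω κ _ _ _ _ _ _ _ _ _ ι red ρ S hfrob hfam
  -- the prime
  obtain ⟨p₀, hp₀, hp₁, hp₂⟩ := hSPT E hfam.primes.toFinset
  have hj : ∃ j, p j = p₀ := by
    by_contra hcon
    push Not at hcon
    apply hp₁
    rw [Set.Finite.mem_toFinset]
    exact ⟨hp₀, hcon⟩
  obtain ⟨j, rfl⟩ := hj
  have hι : ∀ x : E, ∃ y : ℚ_[p j], algebraMap ℚ_[p j] (F j) y = ι j x := fun x => hp₂ (F j) (ι j) x
  obtain ⟨hcont, hpol⟩ := hfam.polys j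
  have hT : (T ∪ {v | p j ∣ nv v}).Finite := hfam.finite.union (hfrob.finite (p j) hp₀)
  -- trace and determinant at the Frobenius elements
  have hFr : ∀ v ∉ T, ¬ p j ∣ nv v → ∀ s ∈ frob v,
      (ρ j s).trace = -ι j ((((Q v).coeff 1 : 𝓞 E)) : E) ∧ (ρ j s).det = ι j ((((Q v).coeff 0 : 𝓞 E)) : E) := by
    intro v hv hpv s hs
    have h1 := ORD_coeff _ _ (hpol v hv hpv s hs)
    simpa [Polynomial.coeff_map] using h1
  have htr : Continuous (fun g => (ρ j g).trace) := hcont.matrix_trace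
  have hdet : Continuous (fun g => (ρ j g).det) := hcont.matrix_det
  have hcl : IsClosed (Set.range (algebraMap ℚ_[p j] (F j))) :=
    (algebraMap_isometry ℚ_[p j] (F j)).isClosedEmbedding.isClosed_range
  -- trace and determinant of all elements
  have hQp : ∀ g, ∃ a b : ℚ_[p j], algebraMap ℚ_[p j] (F j) a = (ρ j g).trace ∧ algebraMap ℚ_[p j] (F j) b = (ρ j g).det := by
    have h1 : IsOpen {g : Γ | ¬ ((ρ j g).trace ∈ Set.range (algebraMap ℚ_[p j] (F j)) ∧
        (ρ j g).det ∈ Set.range (algebraMap ℚ_[p j] (F j)))} := by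
      have h2 : IsClosed {g : Γ | (ρ j g).trace ∈ Set.range (algebraMap ℚ_[p j] (F j)) ∧
        (ρ j g).det ∈ Set.range (algebraMap ℚ_[p j] (F j))} := (hcl.preimage htr).inter (hcl.preimage hdet)
      exact h2.isOpen_compl
    intro g
    by_contra hcon
    have h3 : g ∈ {g : Γ | ¬ ((ρ j g).trace ∈ Set.range (algebraMap ℚ_[p j] (F j)) ∧
        (ρ j g).det ∈ Set.range (algebraMap ℚ_[p j] (F j)))} := by
      rintro ⟨⟨a, ha⟩, ⟨b, hb⟩⟩
      exact hcon ⟨a, b, ha, hb⟩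
    obtain ⟨v, -, hv, s, hs, -, hs2⟩ := hfrob.dense _ _ h1 ⟨g, h3, trivial⟩ hT
    rw [Set.mem_union, not_or] at hv
    obtain ⟨h4, h5⟩ := hFr v hv.1 hv.2 s hs
    apply hs2
    rw [h4, h5]
    obtain ⟨y, hy⟩ := hι ((((Q v).coeff 1 : 𝓞 E)) : E)
    obtain ⟨z, hz⟩ := hι ((((Q v).coeff 0 : 𝓞 E)) : E)
    exact ⟨⟨-y, by rw [map_neg, hy]⟩, ⟨z, hz⟩⟩
  -- the radius
  haveI : CharZero (F j) := charZero_of_injective_algebraMap (algebraMap ℚ_[p j] (F j)).injective
  have hW1 : IsOpen {M : Fin 2 → Fin 2 → F j | ((Matrix.of M).trace, (Matrix.of M).det) ∈ ORD_W (F j)} := by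
    apply (ORD_open (F j)).preimage
    have h1 : Continuous (fun M : Fin 2 → Fin 2 → F j => Matrix.of M) := continuous_id
    exact h1.matrix_trace.prodMk h1.matrix_det
  have hW2 : (fun x y => (1 : Matrix (Fin 2) (Fin 2) (F j)) x y) ∈
      {M : Fin 2 → Fin 2 → F j | ((Matrix.of M).trace, (Matrix.of M).det) ∈ ORD_W (F j)} := by
    have h1 : Matrix.of (fun x y => (1 : Matrix (Fin 2) (Fin 2) (F j)) x y) = 1 := rfl
    show ((Matrix.of fun x y => (1 : Matrix (Fin 2) (Fin 2) (F j)) x y).trace,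
      (Matrix.of fun x y => (1 : Matrix (Fin 2) (Fin 2) (F j)) x y).det) ∈ ORD_W (F j)
    rw [h1, Matrix.trace_one, Matrix.det_one]
    intro k hk _
    simp only [Fintype.card_fin, Nat.cast_ofNat]
    rw [ORD_two]
    exact Nat.cast_ne_zero.2 (by omega)
  obtain ⟨ε, hε, hball⟩ := Metric.isOpen_iff.1 hW1 _ hW2
  obtain ⟨g, hg1, x, hx1, hx2⟩ := hLOC (p j) (F j) (Ω j) Γ (ρ j) hcont (hfam.integral j) (hfam.irr j) hQp ε hε
  have hgW : ((ρ j g).trace, (ρ j g).det) ∈ ORD_W (F j) := by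
    have hmem : (fun x y => ρ j g x y) ∈ Metric.ball (fun x y => (1 : Matrix (Fin 2) (Fin 2) (F j)) x y) ε := by
      rw [Metric.mem_ball, dist_pi_lt_iff hε]
      intro a
      rw [dist_pi_lt_iff hε]
      intro b
      rw [dist_eq_norm]
      exact hg1 a b
    exact hball hmem
  have hgd : dsc (ρ j g) ≠ 0 := by
    intro h0
    rw [h0] at hx1
    have hx0 : x = 0 := by
      apply (algebraMap ℚ_[p j] (F j)).injective
      rw [hx1, map_zero]
    apply hx2
    rw [hx0]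
    exact ⟨0, by simp⟩
  -- a Frobenius element near `g`
  have hO : IsOpen {s : Γ | ((ρ j s).trace, (ρ j s).det) ∈ ORD_W (F j) ∧ dsc (ρ j s) ≠ 0} := by
    apply IsOpen.inter
    · exact (ORD_open (F j)).preimage (htr.prodMk hdet)
    · apply isOpen_ne_fun _ continuous_const
      unfold dsc
      exact (htr.pow 2).sub (continuous_const.mul hdet)
  obtain ⟨v, -, hv, s, hs, -, hs1, hs2⟩ := hfrob.dense _ _ hO ⟨g, ⟨hgW, hgd⟩, trivial⟩ hT
  rw [Set.mem_union, not_or] at hv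
  obtain ⟨h4, h5⟩ := hFr v hv.1 hv.2 s hs
  refine ⟨v, hv.1, ?_, ?_⟩
  · intro h0
    apply hs2
    unfold dsc
    rw [h4, h5]
    have h6 : (ι j) ((algebraMap (𝓞 E) E) (dQ (Q v))) = 0 := by rw [h0, map_zero, map_zero]
    unfold dQ at h6
    rw [map_sub, map_pow, map_mul, map_sub, map_pow, map_mul] at h6
    have e4 : (ι j) ((algebraMap (𝓞 E) E) 4) = 4 := by
      rw [show (4 : 𝓞 E) = ((4 : ℕ) : 𝓞 E) by norm_num, map_natCast, map_natCast]
      norm_num
    rw [e4] at h6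
    rw [neg_sq]
    exact h6
  · intro k hk1 hk2 h0
    apply hs1 k hk1 hk2
    show Uk (ρ j s).trace (ρ j s).det k = 0
    rw [h4, h5]
    have h6 : ((ι j).comp (algebraMap (𝓞 E) E)) (Uk (-(Q v).coeff 1) ((Q v).coeff 0) k) = 0 := by rw [h0, map_zero]
    rw [ORD_map, map_neg] at h6
    exact h6

end Pool.Agent.LB
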